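import Pool.Agent.SymZF.Space5

/-!
# A compact Hausdorff space with a cuf base which is not weakly Loeb

We build a model of ZF with such a space. The model is the symmetric submodel of the Boolean valued
universe for the Cohen algebra on `2 ^ (ω × ω × ω)`, divided by an ultrafilter. The space is the one
point compactification of the disjoint union, over `n`, of the product spaces of the sequences of
pairs `({x n m 0, x n m 1})_m`, where `x n m j` is the class modulo finite changes of a Cohen real
or of its complement. The group allows to flip the pairs of one row independently of the other rows.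
-/

set_option autoImplicit false

namespace Pool.Agent.Results.MP_d8a1a0_gt.CufNotWeaklyLoeb

open Pool.Agent.SymZF

/-- There is a model of ZF with a compact Hausdorff space which has a cuf base but is not weakly
Loeb. -/
theorem result : ∃ (M : Type 1) (E : M → M → Prop), IsZF E ∧
    ∃ X τ : M, IsTopology E X τ ∧ IsCompactSpace E X τ ∧ IsHausdorff E X τ ∧ HasCufBase E τ ∧
      ¬ IsWeaklyLoeb E X τ := by
  have hne : (⊤ : CB) ≠ ⊥ := CB.ne_bot_of_mem (w := 0) (by rw [CB.op_top]; trivial)
  obtain ⟨U, -⟩ := Uf.exists_T hne
  exact ⟨SS.M U, Mem U, SS.isZF U, main_model U⟩

end Pool.Agent.Results.MP_d8a1a0_gt.CufNotWeaklyLoeb
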